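import Mathlib

/-!
# Non-unimodal intervals of the induced-subgraph poset

Let `G` be the simple graph on 8 vertices which consists of two disjoint complete graphs `K_4` and
two disjoint edges between them. The numbers of isomorphism types of induced subgraphs of `G` with
`1, 2, ..., 8` vertices are `1, 2, 3, 6, 5, 6, 2, 1`; for connected induced subgraphs they are
`1, 1, 2, 4, 3, 4, 2, 1`. So neither the interval from the one-vertex graph to `G` in the poset of
all graphs nor the one in the poset of connected graphs is unimodal.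
-/

set_option autoImplicit false

namespace Pool.Agent.Results.MP_207d4d_co.TwoCliques

/-- A finite graph with vertex set `Fin n`; loops and multiple edges are allowed. `m i j` is the
number of edges between `i` and `j`, and `m i i` is the number of loops at `i`. -/
structure MGraph where
  n : ℕ
  m : Fin n → Fin n → ℕ
  symm : ∀ i j, m i j = m j i

/-- isomorphism -/
def MGraph.Iso (H K : MGraph) : Prop :=
  ∃ f : Fin H.n → Fin K.n, Function.Bijective f ∧ ∀ i j, H.m i j = K.m (f i) (f j)

/-- `H` is isomorphic to an induced subgraph of `K` -/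
def MGraph.Le (H K : MGraph) : Prop :=
  ∃ f : Fin H.n → Fin K.n, Function.Injective f ∧ ∀ i j, H.m i j = K.m (f i) (f j)

/-- `K` has a vertex and any two vertices are joined by a path -/
def MGraph.Connected (K : MGraph) : Prop :=
  0 < K.n ∧ ∀ i j, Relation.ReflTransGen (fun a b => 0 < K.m a b) i j

instance isoSetoid : Setoid MGraph where
  r := MGraph.Iso
  iseqv :=
    { refl := fun _ => ⟨id, Function.bijective_id, fun _ _ => rfl⟩
      symm := by
        rintro H K ⟨f, hf, h⟩
        let e := Equiv.ofBijective f hf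
        refine ⟨e.symm, e.symm.bijective, fun i j => ?_⟩
        rw [h]
        show _ = K.m (e (e.symm i)) (e (e.symm j))
        rw [e.apply_symm_apply, e.apply_symm_apply]
      trans := by
        rintro H K L ⟨f, hf, h⟩ ⟨g, hg, h'⟩
        exact ⟨g ∘ f, hg.comp hf, fun i j => by rw [h, h']; rfl⟩ }

/-- the unlabelled graphs (isomorphism types) -/
abbrev UGraph : Type := Quotient isoSetoid

/-- `r_k` of the interval `[H, G]`: the number of isomorphism types of graphs `K` with
`H ≤ K ≤ G` and `|K| = |H| + k` -/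
noncomputable def rankSize (H G : MGraph) (k : ℕ) : ℕ :=
  {q : UGraph | ∃ K : MGraph, Quotient.mk isoSetoid K = q ∧ H.Le K ∧ K.Le G ∧ K.n = H.n + k}.ncard

/-- `r_k` of the interval `[H, G]^c` of connected graphs: the number of isomorphism types of
connected graphs `K` with `H ≤ K ≤ G` and `|K| = |H| + k` -/
noncomputable def connRankSize (H G : MGraph) (k : ℕ) : ℕ :=
  {q : UGraph | ∃ K : MGraph, Quotient.mk isoSetoid K = q ∧ K.Connected ∧ H.Le K ∧ K.Le G ∧
    K.n = H.n + k}.ncard

/-- the sequence `r 0, ..., r L` is unimodal -/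
def Unimodal (r : ℕ → ℕ) (L : ℕ) : Prop :=
  ∃ p ≤ L, (∀ i < p, r i ≤ r (i + 1)) ∧ ∀ i, p ≤ i → i < L → r (i + 1) ≤ r i

/-! ### The graph -/

/-- adjacency of the two cliques `{0,1,2,3}`, `{4,5,6,7}` with the edges `04` and `15` -/
def adj (a b : ℕ) : Bool :=
  !(Nat.beq a b) && (Nat.beq (a / 4) (b / 4) || (Nat.beq (a % 4) (b % 4) && Nat.blt (a % 4) 2))

theorem adj_symm : ∀ i j : Fin 8, adj i.val j.val = adj j.val i.val := by decide

/-- two disjoint complete graphs `K_4` and two disjoint edges between them -/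
def G : MGraph := ⟨8, fun i j => if adj i.val j.val then 1 else 0, fun i j => by rw [adj_symm]⟩

/-- the one-vertex graph -/
def K1 : MGraph := ⟨1, fun _ _ => 0, fun _ _ => rfl⟩

/-- restriction of `G` -/
def sub (k : ℕ) (g : Fin k → Fin 8) : MGraph :=
  ⟨k, fun i j => if adj (g i).val (g j).val then 1 else 0, fun i j => by rw [adj_symm]⟩

/-- digits to the base `8` -/
def digit (x i : ℕ) : ℕ := x / 8 ^ i % 8

/-- The five types with five vertices. -/
def repCode (t : ℕ) : ℕ :=
  if Nat.beq t 0 then 18056
  else if Nat.beq t 1 then 22664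
  else if Nat.beq t 2 then 26760
  else if Nat.beq t 3 then 26248
  else 31880

/-- a set of five vertices, its type, and an isomorphism -/
def table : List (ℕ × ℕ × ℕ) := [
  (18056, 0, 18056), (22152, 0, 18049), (26248, 3, 18056), (30344, 3, 18056),
  (22664, 1, 18056), (26760, 2, 18056), (30856, 2, 18056), (27272, 2, 18049),
  (31368, 2, 18049), (31880, 4, 18056), (22728, 1, 18056), (26824, 2, 18056),
  (30920, 2, 18056), (27336, 2, 18049), (31432, 2, 18049), (31944, 4, 18056),
  (27400, 1, 8739), (31496, 1, 8739), (32008, 2, 8739), (32072, 2, 8732),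
  (22736, 2, 18056), (26832, 2, 18056), (30928, 2, 18056), (27344, 4, 18056),
  (31440, 4, 18056), (31952, 4, 18056), (27408, 2, 8739), (31504, 2, 8739),
  (32016, 2, 8739), (32080, 4, 8739), (27416, 2, 8739), (31512, 2, 8739),
  (32024, 2, 8739), (32088, 4, 8739), (32096, 0, 13380), (22737, 2, 14472),
  (26833, 4, 18056), (30929, 4, 18056), (27345, 2, 18056), (31441, 2, 18056),
  (31953, 4, 18056), (27409, 2, 8291), (31505, 2, 8291), (32017, 4, 8739),
  (32081, 2, 8739), (27417, 2, 8291), (31513, 2, 8291), (32025, 4, 8739),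
  (32089, 2, 8739), (32097, 0, 13324), (27418, 4, 8739), (31514, 4, 8739),
  (32026, 4, 8739), (32090, 4, 8739), (32098, 3, 13380), (32099, 3, 13380)]

def idx : List ℕ := [0, 1, 2, 3, 4]

/-- check one entry of the table -/
def check (x : ℕ × ℕ × ℕ) : Bool :=
  Nat.blt x.2.1 5 && idx.all (fun i => Nat.blt (digit x.2.2 i) 5 && idx.all (fun j =>
    (Nat.beq i j || !(Nat.beq (digit x.2.2 i) (digit x.2.2 j))) &&
    (adj (digit x.1 i) (digit x.1 j) ==
      adj (digit (repCode x.2.1) (digit x.2.2 i)) (digit (repCode x.2.1) (digit x.2.2 j)))))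

theorem table_check : ∀ x ∈ table, check x = true := by decide +kernel

theorem table_complete : ∀ a b : Fin 8, a < b → ∀ c, b < c → ∀ d, c < d → ∀ e, d < e →
    (table.any fun x => Nat.beq x.1 (a.val + 8 * b.val + 64 * c.val + 512 * d.val + 4096 * e.val))
      = true := by
  decide +kernel

/-- the representatives as subsets of the vertex set of `G` -/
def rep5 (t : ℕ) : Fin 5 → Fin 8 := fun i => ⟨digit (repCode t) i.val, Nat.mod_lt _ (by norm_num)⟩

theorem mem_idx (i : Fin 5) : i.val ∈ idx := by
  revert i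
  decide

theorem class5 (g : Fin 5 → Fin 8) (hg : StrictMono g) :
    ∃ t < 5, ∃ p : Fin 5 → Fin 5, Function.Bijective p ∧
      ∀ i j, adj (g i).val (g j).val = adj (rep5 t (p i)).val (rep5 t (p j)).val := by
  have h := table_complete (g 0) (g 1) (hg (by decide)) (g 2) (hg (by decide)) (g 3)
    (hg (by decide)) (g 4) (hg (by decide))
  rw [List.any_eq_true] at h
  obtain ⟨x, hx, hcode⟩ := h
  have hcode' := Nat.eq_of_beq_eq_true hcode
  have hc := table_check x hx
  unfold check at hc
  rw [Bool.and_eq_true, List.all_eq_true] at hc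
  obtain ⟨h5, hall⟩ := hc
  have hd : ∀ i : Fin 5, digit x.1 i.val = (g i).val := by
    intro i
    rw [hcode']
    have h0 := (g 0).2
    have h1 := (g 1).2
    have h2 := (g 2).2
    have h3 := (g 3).2
    have h4 := (g 4).2
    unfold digit
    fin_cases i
    · show _ / 8 ^ 0 % 8 = (g 0).val
      norm_num
      omega
    · show _ / 8 ^ 1 % 8 = (g 1).val
      norm_num
      omega
    · show _ / 8 ^ 2 % 8 = (g 2).val
      norm_num
      omega
    · show _ / 8 ^ 3 % 8 = (g 3).val
      norm_num
      omega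
    · show _ / 8 ^ 4 % 8 = (g 4).val
      norm_num
      omega
  have hlt : ∀ i : Fin 5, digit x.2.2 i.val < 5 := by
    intro i
    have := hall i.val (mem_idx i)
    rw [Bool.and_eq_true, Nat.blt_eq] at this
    exact this.1
  have hpair : ∀ i j : Fin 5, (i ≠ j → digit x.2.2 i.val ≠ digit x.2.2 j.val) ∧
      adj (digit x.1 i.val) (digit x.1 j.val) = adj (digit (repCode x.2.1) (digit x.2.2 i.val))
        (digit (repCode x.2.1) (digit x.2.2 j.val)) := by
    intro i j
    have := hall i.val (mem_idx i)
    rw [Bool.and_eq_true, List.all_eq_true] at this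
    have h2 := this.2 j.val (mem_idx j)
    rw [Bool.and_eq_true, Bool.or_eq_true, beq_iff_eq] at h2
    refine ⟨fun hij heq => ?_, h2.2⟩
    rcases h2.1 with h3 | h3
    · exact hij (Fin.ext (Nat.eq_of_beq_eq_true h3))
    · rw [heq, Nat.beq_refl] at h3
      exact absurd h3 (by decide)
  rw [Nat.blt_eq] at h5
  refine ⟨x.2.1, h5, fun i => ⟨digit x.2.2 i.val, hlt i⟩, ?_, ?_⟩
  · rw [← Finite.injective_iff_bijective]
    intro i j hij
    by_contra hne
    exact (hpair i j).1 hne (Fin.mk.inj_iff.1 hij)
  · intro i j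
    have := (hpair i j).2
    rw [hd, hd] at this
    exact this

/-! ### General facts -/

theorem Iso.connected {H K : MGraph} (h : H.Iso K) (hH : H.Connected) : K.Connected := by
  obtain ⟨f, hf, hfm⟩ := h
  refine ⟨?_, fun i j => ?_⟩
  · by_contra hcon
    have h0 : K.n = 0 := by omega
    have := (f ⟨0, hH.1⟩).2
    omega
  · obtain ⟨i, rfl⟩ := hf.2 i
    obtain ⟨j, rfl⟩ := hf.2 j
    have h1 := hH.2 i j
    induction h1 with
    | refl => exact Relation.ReflTransGen.refl
    | @tail b d _ hbd ih =>
      refine ih.tail ?_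
      rw [← hfm]
      exact hbd

/-- every graph `K ≤ G` with `k` vertices is isomorphic to a restriction of `G` -/
theorem le_G {K : MGraph} (h : K.Le G) : ∃ g : Fin K.n → Fin 8, StrictMono g ∧ K.Iso (sub K.n g) := by
  obtain ⟨f, hf, hfm⟩ := h
  let f' : Fin K.n → Fin 8 := f
  let σ := Tuple.sort f'
  refine ⟨f' ∘ σ, (Tuple.monotone_sort f').strictMono_of_injective (hf.comp σ.injective), σ.symm,
    σ.symm.bijective, fun i j => ?_⟩
  rw [hfm]
  show (if adj (f' i).val (f' j).val then 1 else 0) =
    if adj (f' (σ (σ.symm i))).val (f' (σ (σ.symm j))).val then 1 else 0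
  rw [σ.apply_symm_apply, σ.apply_symm_apply]

theorem finite_aux (c : ℕ) : {q : UGraph | ∃ K : MGraph, Quotient.mk isoSetoid K = q ∧ K.Le G ∧
    K.n = c}.Finite := by
  refine (Set.finite_range (fun g : Fin c → Fin 8 => Quotient.mk isoSetoid (sub c g))).subset ?_
  rintro q ⟨K, rfl, hK, rfl⟩
  obtain ⟨g, -, hg⟩ := le_G hK
  exact ⟨g, (Quotient.sound hg).symm⟩

theorem K1_le {K : MGraph} (hK : K.Le G) (h : 0 < K.n) : K1.Le K := by
  obtain ⟨f, hf, hfm⟩ := hK
  refine ⟨fun _ => ⟨0, h⟩, fun i j _ => Subsingleton.elim (α := Fin 1) i j, fun i j => ?_⟩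
  have h1 : ∀ a : Fin 8, G.m a a = 0 := by decide
  have h2 := hfm ⟨0, h⟩ ⟨0, h⟩
  rw [show G.m (f ⟨0, h⟩) (f ⟨0, h⟩) = 0 from h1 _] at h2
  exact h2.symm

theorem sub_le {k : ℕ} (g : Fin k → Fin 8) (hg : Function.Injective g) : (sub k g).Le G :=
  ⟨g, hg, fun _ _ => rfl⟩

/-- an invariant: the sum of the squares of the degrees -/
def sq (K : MGraph) : ℕ := ∑ i, (∑ j, K.m i j) ^ 2

theorem sq_iso {H K : MGraph} (h : H.Iso K) : sq H = sq K := by
  obtain ⟨f, hf, hfm⟩ := h
  unfold sq
  refine Fintype.sum_bijective f hf _ _ fun i => ?_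
  congr 1
  refine Fintype.sum_bijective f hf _ _ fun j => hfm i j

theorem sq_inj {H K : MGraph} (h : Quotient.mk isoSetoid H = Quotient.mk isoSetoid K) :
    sq H = sq K := sq_iso (Quotient.exact h)

/-- lower bound for the number of types -/
theorem lower {ι : Type} [Fintype ι] (P : MGraph → Prop) (c : ℕ) (R : ι → MGraph)
    (h1 : ∀ i, P (R i)) (h2 : ∀ i, (R i).Le G) (h3 : ∀ i, (R i).n = c)
    (hinj : Function.Injective fun i => sq (R i)) :
    Fintype.card ι ≤ {q : UGraph | ∃ K : MGraph, Quotient.mk isoSetoid K = q ∧ P K ∧ K.Le G ∧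
      K.n = c}.ncard := by
  have hfin : {q : UGraph | ∃ K : MGraph, Quotient.mk isoSetoid K = q ∧ P K ∧ K.Le G ∧
      K.n = c}.Finite := by
    refine (finite_aux c).subset ?_
    rintro q ⟨K, hq, -, hK, hc⟩
    exact ⟨K, hq, hK, hc⟩
  have hinj' : Function.Injective fun i => Quotient.mk isoSetoid (R i) :=
    fun i j hij => hinj (sq_inj hij)
  rw [← Nat.card_eq_fintype_card, ← Set.ncard_univ,
    ← Set.ncard_image_of_injective Set.univ hinj']
  refine Set.ncard_le_ncard ?_ hfin
  rintro q ⟨i, -, rfl⟩
  exact ⟨R i, rfl, h1 i, h2 i, h3 i⟩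

/-- upper bound for the number of types with five vertices -/
theorem upper (P : MGraph → Prop) (N : ℕ)
    (h : ∀ K t, P K → t < 5 → K.Iso (sub 5 (rep5 t)) → t < N) :
    {q : UGraph | ∃ K : MGraph, Quotient.mk isoSetoid K = q ∧ P K ∧ K.Le G ∧
      K.n = 5}.ncard ≤ N := by
  have hsub : {q : UGraph | ∃ K : MGraph, Quotient.mk isoSetoid K = q ∧ P K ∧ K.Le G ∧
      K.n = 5} ⊆ (fun t : ℕ => Quotient.mk isoSetoid (sub 5 (rep5 t))) '' (Finset.range N) := by
    rintro q ⟨⟨n, m, s⟩, rfl, hP, hK, hn⟩
    obtain rfl : n = 5 := hn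
    obtain ⟨g, hg, hiso⟩ := le_G hK
    obtain ⟨t, ht, p, hp, hadj⟩ := class5 g hg
    have hiso' : (sub 5 g).Iso (sub 5 (rep5 t)) := by
      refine ⟨p, hp, fun i j => ?_⟩
      have h1 : (if adj (g i).val (g j).val then 1 else 0) =
        if adj (rep5 t (p i)).val (rep5 t (p j)).val then 1 else 0 := by rw [hadj i j]
      exact h1
    have hK' : MGraph.Iso ⟨5, m, s⟩ (sub 5 (rep5 t)) := isoSetoid.iseqv.trans hiso hiso'
    exact ⟨t, by simpa using h _ t hP ht hK', (Quotient.sound hK').symm⟩
  refine (Set.ncard_le_ncard hsub (Set.toFinite _)).trans ?_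
  refine (Set.ncard_image_le (Set.toFinite _)).trans ?_
  rw [Set.ncard_coe_finset, Finset.card_range]

/-- criterion for connectedness -/
theorem conn_of {k : ℕ} (hk : 0 < k) (g : Fin k → Fin 8)
    (h : ∀ i j : Fin k, i = j ∨ adj (g i).val (g j).val = true ∨
      (∃ a, adj (g i).val (g a).val = true ∧ adj (g a).val (g j).val = true) ∨
      (∃ a b, adj (g i).val (g a).val = true ∧ adj (g a).val (g b).val = true ∧
        adj (g b).val (g j).val = true)) : (sub k g).Connected := by
  have hpos : ∀ i j : Fin k, adj (g i).val (g j).val = true → 0 < (sub k g).m i j := by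
    intro i j hij
    show 0 < if adj (g i).val (g j).val then 1 else 0
    rw [if_pos hij]
    norm_num
  refine ⟨hk, fun i j => ?_⟩
  rcases h i j with h | h | ⟨a, h1, h2⟩ | ⟨a, b, h1, h2, h3⟩
  · rw [h]
  · exact Relation.ReflTransGen.single (hpos _ _ h)
  · exact Relation.ReflTransGen.head (hpos _ _ h1) (Relation.ReflTransGen.single (hpos _ _ h2))
  · exact Relation.ReflTransGen.head (hpos _ _ h1)
      (Relation.ReflTransGen.head (hpos _ _ h2) (Relation.ReflTransGen.single (hpos _ _ h3)))

theorem not_conn {k : ℕ} (g : Fin k → Fin 8) (c : Fin k → Bool) (i₀ j₀ : Fin k)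
    (h0 : c i₀ ≠ c j₀) (h : ∀ i j : Fin k, adj (g i).val (g j).val = true → c i = c j) :
    ¬ (sub k g).Connected := by
  rintro ⟨-, hc⟩
  apply h0
  have h1 := hc i₀ j₀
  clear h0 hc
  induction h1 with
  | refl => rfl
  | @tail b d _ hbd ih =>
    rw [ih]
    apply h
    by_contra hcon
    have h2 : 0 < if adj (g b).val (g d).val then 1 else 0 := hbd
    rw [if_neg hcon] at h2
    exact absurd h2 (by norm_num)

/-! ### The types with four and six vertices -/

def four : Fin 6 → Fin 4 → Fin 8 :=
  ![![0, 1, 2, 3], ![0, 1, 2, 4], ![0, 1, 4, 5], ![0, 1, 4, 6], ![0, 1, 2, 6], ![0, 1, 6, 7]]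

def six : Fin 6 → Fin 6 → Fin 8 :=
  ![![0, 1, 2, 3, 4, 5], ![0, 1, 2, 3, 4, 6], ![0, 1, 2, 4, 5, 6], ![0, 1, 2, 4, 6, 7],
    ![0, 1, 2, 3, 6, 7], ![0, 2, 3, 5, 6, 7]]

theorem four_inj : ∀ t, Function.Injective (four t) := by decide +kernel
theorem six_inj : ∀ t, Function.Injective (six t) := by decide +kernel
theorem four_sq : Function.Injective fun t => sq (sub 4 (four t)) := by decide +kernel
theorem six_sq : Function.Injective fun t => sq (sub 6 (six t)) := by decide +kernel

theorem four_conn (t : Fin 4) : (sub 4 (four (t.castLE (by norm_num)))).Connected := by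
  apply conn_of (by norm_num)
  revert t
  decide +kernel

theorem six_conn (t : Fin 4) : (sub 6 (six (t.castLE (by norm_num)))).Connected := by
  apply conn_of (by norm_num)
  revert t
  decide +kernel

theorem five_not_conn (t : ℕ) (ht : t < 5) (h3 : ¬ t < 3) : ¬ (sub 5 (rep5 t)).Connected := by
  have : t = 3 ∨ t = 4 := by omega
  rcases this with rfl | rfl
  · exact not_conn _ ![true, true, true, true, false] 0 4 (by decide) (by decide +kernel)
  · exact not_conn _ ![true, true, true, false, false] 0 4 (by decide) (by decide +kernel)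

theorem not_unimodal (r : ℕ → ℕ) (L i j k : ℕ) (hij : i < j) (hjk : j < k) (hk : k ≤ L)
    (h1 : r j < r i) (h2 : r j < r k) : ¬ Unimodal r L := by
  rintro ⟨p, -, hup, hdown⟩
  rcases Nat.lt_or_ge j p with hp | hp
  · have h : ∀ d, i + d ≤ j → r i ≤ r (i + d) := by
      intro d
      induction d with
      | zero => intro _; exact le_refl _
      | succ d ih =>
        intro hd
        exact (ih (by omega)).trans (hup (i + d) (by omega))
    have := h (j - i) (by omega)
    rw [show i + (j - i) = j by omega] at this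
    omega
  · have h : ∀ d, j + d ≤ k → r (j + d) ≤ r j := by
      intro d
      induction d with
      | zero => intro _; exact le_refl _
      | succ d ih =>
        intro hd
        exact (hdown (j + d) (by omega) (by omega)).trans (ih (by omega))
    have := h (k - j) (by omega)
    rw [show j + (k - j) = k by omega] at this
    omega

/-- **Theorem.** There are connected graphs `H ≤ G`, `H` the one-vertex graph and `G` a simple
graph with 8 vertices, such that neither the interval `[H, G]` in the poset of all graphs nor the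
interval `[H, G]^c` in the poset of connected graphs is unimodal. -/
theorem result : ∃ H G : MGraph, H.n = 1 ∧ G.n = 8 ∧ (∀ i j, G.m i j ≤ 1) ∧ (∀ i, G.m i i = 0) ∧
    H.Connected ∧ G.Connected ∧ H.Le G ∧ ¬ Unimodal (rankSize H G) (G.n - H.n) ∧
    ¬ Unimodal (connRankSize H G) (G.n - H.n) := by
  have hGG : G.Le G := ⟨id, Function.injective_id, fun _ _ => rfl⟩
  have hG : G.Connected := by
    have h := conn_of (k := 8) (by norm_num) id (by decide +kernel)
    exact h
  refine ⟨K1, G, rfl, rfl, by decide, by decide, ⟨by decide, ?_⟩, hG, K1_le hGG (by decide), ?_, ?_⟩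
  · intro i j
    have : i = j := Subsingleton.elim (α := Fin 1) i j
    rw [this]
  · have e : ∀ k, rankSize K1 G k = {q : UGraph | ∃ K : MGraph, Quotient.mk isoSetoid K = q ∧
        K1.Le K ∧ K.Le G ∧ K.n = 1 + k}.ncard := fun k => rfl
    refine not_unimodal _ _ 3 4 5 (by norm_num) (by norm_num) (by decide) ?_ ?_
    · refine lt_of_le_of_lt (b := 5) ?_ (lt_of_lt_of_le (b := 6) (by norm_num) ?_)
      · rw [e]
        exact upper (fun K => K1.Le K) 5 fun _ _ _ ht _ => ht
      · rw [e]
        have h := lower (fun K => K1.Le K) 4 (fun t => sub 4 (four t))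
          (fun t => K1_le (sub_le _ (four_inj t)) (by show 0 < 4; norm_num))
          (fun t => sub_le _ (four_inj t)) (fun _ => rfl) four_sq
        simpa using h
    · refine lt_of_le_of_lt (b := 5) ?_ (lt_of_lt_of_le (b := 6) (by norm_num) ?_)
      · rw [e]
        exact upper (fun K => K1.Le K) 5 fun _ _ _ ht _ => ht
      · rw [e]
        have h := lower (fun K => K1.Le K) 6 (fun t => sub 6 (six t))
          (fun t => K1_le (sub_le _ (six_inj t)) (by show 0 < 6; norm_num))
          (fun t => sub_le _ (six_inj t)) (fun _ => rfl) six_sq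
        simpa using h
  · have e : ∀ k, connRankSize K1 G k = {q : UGraph | ∃ K : MGraph, Quotient.mk isoSetoid K = q ∧
        (K.Connected ∧ K1.Le K) ∧ K.Le G ∧ K.n = 1 + k}.ncard := by
      intro k
      unfold connRankSize
      congr 1
      ext q
      constructor
      · rintro ⟨K, h1, h2, h3, h4⟩
        exact ⟨K, h1, ⟨h2, h3⟩, h4⟩
      · rintro ⟨K, h1, ⟨h2, h3⟩, h4⟩
        exact ⟨K, h1, h2, h3, h4⟩
    have hup : connRankSize K1 G 4 ≤ 3 := by
      rw [e]
      refine upper (fun K => K.Connected ∧ K1.Le K) 3 fun K t hP ht hiso => ?_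
      by_contra h3
      exact five_not_conn t ht h3 (Iso.connected hiso hP.1)
    refine not_unimodal _ _ 3 4 5 (by norm_num) (by norm_num) (by decide) ?_ ?_
    · refine lt_of_le_of_lt hup (lt_of_lt_of_le (b := 4) (by norm_num) ?_)
      rw [e]
      have h := lower (fun K => K.Connected ∧ K1.Le K) 4
        (fun t : Fin 4 => sub 4 (four (t.castLE (by norm_num))))
        (fun t => ⟨four_conn t, K1_le (sub_le _ (four_inj _)) (by show 0 < 4; norm_num)⟩)
        (fun t => sub_le _ (four_inj _)) (fun _ => rfl)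
        (four_sq.comp (Fin.castLE_injective (show 4 ≤ 6 by norm_num)))
      simpa using h
    · refine lt_of_le_of_lt hup (lt_of_lt_of_le (b := 4) (by norm_num) ?_)
      rw [e]
      have h := lower (fun K => K.Connected ∧ K1.Le K) 6
        (fun t : Fin 4 => sub 6 (six (t.castLE (by norm_num))))
        (fun t => ⟨six_conn t, K1_le (sub_le _ (six_inj _)) (by show 0 < 6; norm_num)⟩)
        (fun t => sub_le _ (six_inj _)) (fun _ => rfl)
        (six_sq.comp (Fin.castLE_injective (show 4 ≤ 6 by norm_num)))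
      simpa using h

end Pool.Agent.Results.MP_207d4d_co.TwoCliques
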